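import Pool.Agent.Helper95.Lin.GoalsA

/-!
Packet FIN of MP_97d78d_ag / MP_5ff3c6_ag: the space of generators is finite dimensional.
-/

set_option autoImplicit false
set_option linter.unusedSectionVars false

open Complex Metric Set Filter Topology MeasureTheory

namespace Pool.Agent.Helper75.Lin

open Pool.Agent.Helper95.Lin

theorem fin (hMONTEL : S_MONTEL) (hIDT : S_IDT) (hLCMP : S_LCMP) (hLLIM : S_LLIM) : S_FIN := by
  intro b D Γ _ g hH L hL
  classical
  have hO : IsOpen D := hH.dom.isOpen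
  obtain ⟨z₀, hz₀⟩ := hH.dom.conn.nonempty
  obtain ⟨r, hr, hrD⟩ := Metric.nhds_basis_closedBall.mem_iff.1 (hO.mem_nhds hz₀)
  set K₀ : Set (Cn b) := closedBall z₀ r with hK₀
  have hK₀c : IsCompact K₀ := isCompact_closedBall _ _
  have hz₀K : z₀ ∈ K₀ := mem_closedBall_self hr.le
  have hK₀i : (interior K₀).Nonempty :=
    ⟨z₀, interior_mono ball_subset_closedBall (by
      rw [isOpen_ball.interior_eq]; exact mem_ball_self hr)⟩
  have : CompactSpace K₀ := isCompact_iff_compactSpace.1 hK₀c
  have : Nonempty K₀ := ⟨⟨z₀, hz₀K⟩⟩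
  have hcont : ∀ V ∈ L, Continuous fun z : K₀ => V z := fun V hV =>
    continuousOn_iff_continuous_restrict.1 ((((hL V).1 hV).1.continuousOn).mono hrD)
  let R : L →ₗ[ℝ] C(K₀, Cn b) :=
    { toFun := fun V => ⟨fun z => V.1 z, hcont V.1 V.2⟩
      map_add' := fun V W => by ext z; rfl
      map_smul' := fun c V => by ext z; rfl }
  have hR : ∀ (V : L) (z : K₀), R V z = V.1 z := fun V z => rfl
  have hinj : Function.Injective R := by
    rw [injective_iff_map_eq_zero]
    intro V hV
    have hI := (hL V.1).1 V.2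
    have h1 : ∀ z ∈ K₀, V.1 z = 0 := fun z hz => by
      have := DFunLike.congr_fun hV (⟨z, hz⟩ : K₀)
      simpa [hR] using this
    have h2 := hIDT D hO hH.dom.conn.isPreconnected V.1 hI.1 z₀ hz₀
      (by filter_upwards [closedBall_mem_nhds z₀ hr] with z hz using h1 z hz)
    apply Subtype.ext
    funext z
    by_cases hz : z ∈ D
    · exact h2 z hz
    · exact hI.2.1 z hz
  have hseq : IsSeqCompact (closedBall (0 : LinearMap.range R) 1) := by
    intro u hu
    choose V hV using fun n => (u n).2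
    have hVb : ∀ n, ∀ z ∈ K₀, ‖(V n).1 z‖ ≤ 1 := by
      intro n z hz
      have h1 : ‖(u n : C(K₀, Cn b))‖ ≤ 1 := by
        have h0 : dist (u n : C(K₀, Cn b)) 0 ≤ 1 := mem_closedBall.1 (hu n)
        rwa [dist_zero_right] at h0
      have h2 := (ContinuousMap.norm_coe_le_norm (u n : C(K₀, Cn b)) ⟨z, hz⟩).trans h1
      rw [← hV n] at h2
      exact h2
    obtain ⟨φ, hφ, F, hF, hlim⟩ := hMONTEL D hO (fun n => (V n).1)
      (fun n => ((hL _).1 (V n).2).1) (by
        intro K hK hKc
        obtain ⟨C, _, hC⟩ := hLCMP hH K₀ hrD hK₀c hK₀i K hK hKc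
        exact ⟨C, fun n z hz => by
          simpa using hC (V n).1 ((hL _).1 (V n).2) 1 (hVb n) z hz⟩)
    set W : Cn b → Cn b := D.indicator F with hW
    have hWF : ∀ z ∈ D, W z = F z := fun z hz => indicator_of_mem hz _
    have hWd : DifferentiableOn ℂ W D := hF.congr hWF
    have hWL : W ∈ L := by
      rw [hL]
      refine hLLIM hH W hWd (fun z hz => indicator_of_notMem hz _) ?_
      intro K hK hKc ε hε
      obtain ⟨n, hn⟩ := (hlim K hK hKc ε hε).exists
      exact ⟨(V (φ n)).1, (hL _).1 (V (φ n)).2, fun z hz => by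
        rw [hWF z (hK hz)]; exact hn z hz⟩
    have htend : Tendsto (u ∘ φ) atTop (𝓝 ⟨R ⟨W, hWL⟩, ⟨_, rfl⟩⟩) := by
      rw [Metric.tendsto_atTop']
      intro ε hε
      have h1 := hlim K₀ hrD hK₀c (ε / 2) (by positivity)
      obtain ⟨N, hN⟩ := eventually_atTop.1 h1
      refine ⟨N, fun n hn => ?_⟩
      have h2 : dist (u (φ n) : C(K₀, Cn b)) (R ⟨W, hWL⟩) ≤ ε / 2 := by
        rw [ContinuousMap.dist_le (by positivity)]
        intro z
        rw [← hV, dist_eq_norm]
        show ‖(V (φ n)).1 z - W z‖ ≤ ε / 2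
        rw [hWF z (hrD z.2)]
        exact hN n hn.le z z.2
      calc dist ((u ∘ φ) n) ⟨R ⟨W, hWL⟩, ⟨_, rfl⟩⟩ =
          dist (u (φ n) : C(K₀, Cn b)) (R ⟨W, hWL⟩) := rfl
        _ ≤ ε / 2 := h2
        _ < ε := by linarith
    refine ⟨_, ?_, φ, hφ, htend⟩
    exact isClosed_closedBall.mem_of_tendsto htend (Eventually.of_forall fun n => hu (φ n))
  have hfin : FiniteDimensional ℝ (LinearMap.range R) := by
    have hcpt : IsCompact (closedBall (0 : LinearMap.range R) 1) := by
      rw [isCompact_iff_isSeqCompact]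
      exact hseq
    exact FiniteDimensional.of_isCompact_closedBall ℝ (V := LinearMap.range R) one_pos hcpt
  have : Module.Finite ℝ (LinearMap.range R) := hfin
  exact Module.Finite.equiv (LinearEquiv.ofInjective R hinj).symm

end Pool.Agent.Helper75.Lin
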