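import Pool.Agent.Helper95.Lin.GoalsA
import Pool.Agent.Helper95.Lin.GoalsD

/-!
Packet FLOWEX of MP_97d78d_ag / MP_5ff3c6_ag: generators have complete flows.
-/

set_option autoImplicit false
set_option linter.unusedSectionVars false

open Complex Metric Set Filter Topology MeasureTheory

namespace Pool.Agent.Helper75.Lin

open Pool.Agent.Helper95.Lin

section

variable {b : ℕ} {D : Set (Cn b)} {Γ : Type} [Group Γ] {g : Γ → Cn b → Cn b}

lemma solInf_sol {V : Cn b → Cn b} {z : Cn b} {x : ℝ → Cn b} (h : SolInf D V z x) (T : ℝ) :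
    Sol D V z T x :=
  ⟨h.1, fun t ht => ⟨(h.2 t ht.1).1, (h.2 t ht.1).2.mono Icc_subset_Ici_self⟩⟩

/-- Locally uniform limits of elements of `Γ` are holomorphic. -/
theorem holo_of_approx (hDLIM : S_DLIM) (hg : GAct D g) (F : Cn b → Cn b)
    (hF : ∀ K ⊆ D, IsCompact K → ∀ ε > 0, ∃ γ, ∀ z ∈ K, ‖F z - g γ z‖ ≤ ε) :
    DifferentiableOn ℂ F D := by
  intro z₀ hz₀
  obtain ⟨r, hr, hrD⟩ := Metric.nhds_basis_closedBall.mem_iff.1 (hg.isOpen.mem_nhds hz₀)
  have hpos : ∀ k : ℕ, (0 : ℝ) < 1 / ((k : ℝ) + 1) := fun k => by positivity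
  choose γ hγ using fun k : ℕ => hF (closedBall z₀ r) hrD (isCompact_closedBall _ _) _ (hpos k)
  have hU : ball z₀ r ⊆ D := ball_subset_closedBall.trans hrD
  have h := (hDLIM (ball z₀ r) isOpen_ball (fun k => g (γ k)) F
    (fun k => (hg.holo _).mono hU) (by
      intro K hK _ ε hε
      have h1 : ∀ᶠ k : ℕ in atTop, 1 / ((k : ℝ) + 1) < ε :=
        (tendsto_one_div_add_atTop_nhds_zero_nat).eventually_lt_const hε
      filter_upwards [h1] with k hk z hz
      rw [norm_sub_rev]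
      exact (hγ k z (ball_subset_closedBall (hK hz))).trans hk.le)).1
  exact (h.differentiableAt (ball_mem_nhds z₀ hr)).differentiableWithinAt

end

theorem flowEx (hGLOB : S_GLOB) (hEULER : S_EULER) (hDLIM : S_DLIM) (hLADD : S_LADD) :
    S_FLOWEX := by
  intro b D Γ _ g hH V hV
  have hO : IsOpen D := hH.dom.isOpen
  have hV' : InL D g (-V) := by
    have := (hLADD hH).2.2 V hV (-1)
    simpa using this
  choose! X hX using hGLOB hH V hV
  choose! Y hY using hGLOB hH (-V) hV'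
  let φ : ℝ → Cn b → Cn b := fun t z => if 0 ≤ t then X z t else Y z (-t)
  have φ_nn : ∀ t z, 0 ≤ t → φ t z = X z t := fun t z ht => if_pos ht
  have φ_neg : ∀ t z, t < 0 → φ t z = Y z (-t) := fun t z ht => if_neg (not_le.2 ht)
  have φ_np : ∀ t, t ≤ 0 → ∀ z ∈ D, φ t z = Y z (-t) := by
    intro t ht z hz
    rcases ht.lt_or_eq with h | h
    · exact φ_neg t z h
    · rw [h, φ_nn 0 z le_rfl, (hX z hz).1, neg_zero, (hY z hz).1]
  have hmaps : ∀ t, ∀ z ∈ D, φ t z ∈ D := by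
    intro t z hz
    rcases le_or_gt 0 t with h | h
    · rw [φ_nn t z h]
      exact ((hX z hz).2 t h).1
    · rw [φ_neg t z h]
      exact ((hY z hz).2 (-t) (by linarith)).1
  -- derivatives on the two half lines
  have hder_p : ∀ z ∈ D, ∀ t, 0 ≤ t → HasDerivWithinAt (fun s => φ s z) (V (φ t z)) (Ici 0) t := by
    intro z hz t ht
    rw [φ_nn t z ht]
    exact ((hX z hz).2 t ht).2.congr (fun s hs => φ_nn s z hs) (φ_nn t z ht)
  have hder_n : ∀ z ∈ D, ∀ t, t ≤ 0 → HasDerivWithinAt (fun s => φ s z) (V (φ t z)) (Iic 0) t := by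
    intro z hz t ht
    rw [φ_np t ht z hz]
    have h1 := ((hY z hz).2 (-t) (by linarith)).2
    have h2 : HasDerivWithinAt (fun s : ℝ => -s) (-1) (Iic 0) t :=
      (hasDerivAt_neg t).hasDerivWithinAt
    have h3 : HasDerivWithinAt (fun s : ℝ => Y z (-s)) ((-1 : ℝ) • (-V) (Y z (-t))) (Iic 0) t :=
      HasDerivWithinAt.scomp t h1 h2 (fun s hs => by
        have : s ≤ 0 := hs
        show (0 : ℝ) ≤ -s
        linarith)
    have h4 : (-1 : ℝ) • (-V) (Y z (-t)) = V (Y z (-t)) := by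
      rw [Pi.neg_apply, neg_smul, one_smul, neg_neg]
    rw [h4] at h3
    exact h3.congr (fun s hs => φ_np s hs z hz) (φ_np t ht z hz)
  have hode : ∀ z ∈ D, ∀ t, HasDerivAt (fun s => φ s z) (V (φ t z)) t := by
    intro z hz t
    rcases lt_trichotomy t 0 with h | h | h
    · exact (hder_n z hz t h.le).hasDerivAt (Iic_mem_nhds h)
    · subst h
      have := (hder_n z hz 0 le_rfl).union (hder_p z hz 0 le_rfl)
      rw [Iic_union_Ici] at this
      exact hasDerivWithinAt_univ.1 this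
    · exact (hder_p z hz t h.le).hasDerivAt (Ici_mem_nhds h)
  have hholo : ∀ t, DifferentiableOn ℂ (φ t) D := by
    intro t
    refine holo_of_approx hDLIM hH.act (φ t) ?_
    intro K hK hKc ε hε
    rcases le_or_gt 0 t with h | h
    · obtain ⟨K', _, _, _, h2⟩ := hEULER hH V hV K hK hKc (t + 1) (by linarith)
      obtain ⟨γ, hγ⟩ := h2 t ⟨h, by linarith⟩ ε hε
      refine ⟨γ, fun z hz => ?_⟩
      rw [φ_nn t z h]
      exact hγ z hz (X z) (solInf_sol (hX z (hK hz)) t)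
    · obtain ⟨K', _, _, _, h2⟩ := hEULER hH (-V) hV' K hK hKc (-t) (by linarith)
      obtain ⟨γ, hγ⟩ := h2 (-t) ⟨by linarith, le_rfl⟩ ε hε
      refine ⟨γ, fun z hz => ?_⟩
      rw [φ_neg t z h]
      exact hγ z hz (Y z) (solInf_sol (hY z (hK hz)) (-t))
  refine ⟨φ, hmaps, hholo, fun z hz => by rw [φ_nn 0 z le_rfl, (hX z hz).1], hode, ?_⟩
  -- joint continuity
  rintro ⟨t₀, z₀⟩ ⟨_, hz₀⟩
  obtain ⟨r, hr, hrD⟩ := Metric.nhds_basis_closedBall.mem_iff.1 (hO.mem_nhds hz₀)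
  set T : ℝ := |t₀| + 1 with hT
  have hT0 : 0 < T := by positivity
  obtain ⟨K₁, hK₁, hK₁c, h₁, _⟩ := hEULER hH V hV (closedBall z₀ r) hrD
    (isCompact_closedBall _ _) T hT0
  obtain ⟨K₂, hK₂, hK₂c, h₂, _⟩ := hEULER hH (-V) hV' (closedBall z₀ r) hrD
    (isCompact_closedBall _ _) T hT0
  have hVc : ContinuousOn V D := hV.1.continuousOn
  have hK : IsCompact (K₁ ∪ K₂) := hK₁c.union hK₂c
  obtain ⟨M, hM⟩ := hK.exists_bound_of_continuousOn (hVc.mono (union_subset hK₁ hK₂))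
  have hmem : ∀ z ∈ closedBall z₀ r, ∀ t ∈ Icc (-T) T, φ t z ∈ K₁ ∪ K₂ := by
    intro z hz t ht
    rcases le_or_gt 0 t with h | h
    · rw [φ_nn t z h]
      exact Or.inl (h₁ z hz T le_rfl (X z) (solInf_sol (hX z (hrD hz)) T) t ⟨h, ht.2⟩)
    · rw [φ_neg t z h]
      exact Or.inr (h₂ z hz T le_rfl (Y z) (solInf_sol (hY z (hrD hz)) T) (-t)
        ⟨by linarith, by linarith [ht.1]⟩)
  have hlip : ∀ z ∈ closedBall z₀ r, ∀ t ∈ Icc (-T) T, ∀ t' ∈ Icc (-T) T,
      ‖φ t z - φ t' z‖ ≤ M * ‖t - t'‖ := by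
    intro z hz t ht t' ht'
    exact Convex.norm_image_sub_le_of_norm_hasDerivWithin_le (f := fun s => φ s z)
      (f' := fun s => V (φ s z)) (s := Icc (-T) T)
      (fun s _ => (hode z (hrD hz) s).hasDerivWithinAt)
      (fun s hs => hM _ (hmem z hz s hs)) (convex_Icc _ _) ht' ht
  have hM0 : 0 ≤ M := by
    have := hM _ (hmem z₀ (mem_closedBall_self hr.le) 0 ⟨by linarith, hT0.le⟩)
    exact (norm_nonneg _).trans this
  have hcz : ContinuousAt (φ t₀) z₀ :=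
    ((hholo t₀).differentiableAt (hO.mem_nhds hz₀)).continuousAt
  apply ContinuousAt.continuousWithinAt
  rw [Metric.continuousAt_iff']
  intro ε hε
  have e1 : ∀ᶠ p : ℝ × Cn b in 𝓝 (t₀, z₀), p.2 ∈ closedBall z₀ r :=
    continuousAt_snd.eventually (closedBall_mem_nhds z₀ hr)
  have hIcc : Icc (-T) T ∈ 𝓝 t₀ := by
    apply Icc_mem_nhds
    · have := neg_abs_le t₀
      linarith
    · have := le_abs_self t₀
      linarith
  have e2 : ∀ᶠ p : ℝ × Cn b in 𝓝 (t₀, z₀), p.1 ∈ Icc (-T) T :=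
    continuousAt_fst.eventually hIcc
  have e3 : ∀ᶠ p : ℝ × Cn b in 𝓝 (t₀, z₀), M * ‖p.1 - t₀‖ < ε / 2 := by
    have : ContinuousAt (fun p : ℝ × Cn b => M * ‖p.1 - t₀‖) (t₀, z₀) := by fun_prop
    have h0 : Tendsto (fun p : ℝ × Cn b => M * ‖p.1 - t₀‖) (𝓝 (t₀, z₀)) (𝓝 0) := by
      have := this.tendsto
      simpa using this
    exact h0.eventually_lt_const (by positivity)
  have e4 : ∀ᶠ p : ℝ × Cn b in 𝓝 (t₀, z₀), dist (φ t₀ p.2) (φ t₀ z₀) < ε / 2 := by
    have h5 : Tendsto (fun p : ℝ × Cn b => p.2) (𝓝 (t₀, z₀)) (𝓝 z₀) := continuousAt_snd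
    exact (hcz.tendsto.comp h5).eventually (Metric.ball_mem_nhds _ (by positivity))
  filter_upwards [e1, e2, e3, e4] with p h1 h2 h3 h4
  calc dist (φ p.1 p.2) (φ t₀ z₀) ≤ dist (φ p.1 p.2) (φ t₀ p.2) + dist (φ t₀ p.2) (φ t₀ z₀) :=
        dist_triangle _ _ _
    _ < ε / 2 + ε / 2 := by
        refine add_lt_add (lt_of_le_of_lt ?_ h3) h4
        rw [dist_eq_norm]
        exact hlip p.2 h1 p.1 h2 t₀ (mem_of_mem_nhds hIcc)
    _ = ε := by ring

end Pool.Agent.Helper75.Lin
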